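import Mathlib

namespace Pool.Agent.H.MP_0ef3a5_an

open Filter Topology Real Finset Metric

inductive T
  | lf : Fin 3 → T
  | nd : T → T → T

def T.ls : T → List (Fin 3)
  | lf i => [i]
  | nd p q => p.ls ++ q.ls

lemma T.ne (t : T) : t.ls ≠ [] := by
  induction t with
  | lf i => simp [T.ls]
  | nd p q hp _ => simp [T.ls, hp]

noncomputable abbrev B := lp (fun _ : T => ℂ) 1

abbrev E := Fin 3 → ℂ

lemma hs (b : B) : HasSum (fun t => ‖b t‖) ‖b‖ := by simpa using lp.hasSum_norm (by simp) b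

lemma nd_sum {G : Type*} [NormedAddCommGroup G] {f : T → G} {a : G} (h0 : ∀ i, f (.lf i) = 0)
    (h : HasSum (fun x : T × T => f (.nd x.1 x.2)) a) : HasSum f a :=
  (Function.Injective.hasSum_iff (g := fun x : T × T => T.nd x.1 x.2)
    (fun x y e => by simpa [Prod.ext_iff] using e) fun t ht => by
      cases t with
      | lf i => exact h0 i
      | nd p q => exact (ht ⟨(p, q), rfl⟩).elim).1 h

def twf (θ : T → T → ℂ) (b c : T → ℂ) : T → ℂ
  | .lf _ => 0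
  | .nd p q => θ p q * (b p * c q)

section
variable {C : ℝ} {θ : T → T → ℂ} (hθ : ∀ p q, ‖θ p q‖ ≤ C)
include hθ

lemma twf_s (b c : B) : ∃ a ≤ C * (‖b‖ * ‖c‖), HasSum (fun t => ‖twf θ b c t‖) a := by
  have h := ((hs b).mul (hs c) ((hs b).summable.mul_of_nonneg (hs c).summable
    (fun _ => norm_nonneg _) fun _ => norm_nonneg _)).mul_left C
  have k : ∀ x : T × T, ‖twf θ b c (.nd x.1 x.2)‖ ≤ C * (‖b x.1‖ * ‖c x.2‖) := fun x => by
    simp only [twf, norm_mul]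
    gcongr
    exact hθ _ _
  have s := h.summable.of_nonneg_of_le (fun _ => norm_nonneg _) k
  exact ⟨_, hasSum_le k s.hasSum h, nd_sum (fun i => norm_zero) s.hasSum⟩

noncomputable def tw (b c : B) : B :=
  ⟨twf θ b c, memℓp_gen (by simpa using (twf_s hθ b c).choose_spec.2.summable)⟩

lemma tw_le (b c : B) : ‖tw hθ b c‖ ≤ C * (‖b‖ * ‖c‖) := by
  obtain ⟨a, h1, h2⟩ := twf_s hθ b c
  exact ((hs (tw hθ b c)).unique h2).trans_le h1

lemma tw_sub (b c b' c' : B) :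
    tw hθ b c - tw hθ b' c' = tw hθ (b - b') c + tw hθ b' (c - c') := by
  ext t
  change twf θ b c t - twf θ b' c' t = twf θ (b - b') c t + twf θ b' (c - c') t
  cases t <;> simp [twf]
  ring

lemma tw_zero (c : B) : tw hθ 0 c = 0 := norm_le_zero_iff.1 (by simpa using tw_le hθ 0 c)

end

lemma ev_s {m : T → ℂ} (hm : ∀ t, ‖m t‖ ≤ 1) (b : B) (t : T) : ‖b t * m t‖ ≤ ‖b t‖ :=
  (norm_mul_le _ _).trans (mul_le_of_le_one_right (norm_nonneg _) (hm t))

lemma ev_ex {m : T → ℂ} (hm : ∀ t, ‖m t‖ ≤ 1) :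
    ∃ e : B →L[ℂ] ℂ, ∀ b : B, HasSum (fun t => b t * m t) (e b) := by
  have s := fun b : B => ((hs b).summable.of_norm_bounded (ev_s hm b)).hasSum
  exact ⟨LinearMap.mkContinuous ⟨⟨fun b => ∑' t, b t * m t, fun b c => by
    simpa [add_mul] using ((s b).add (s c)).tsum_eq⟩, fun a b => by
      simpa [mul_assoc] using ((s b).mul_left a).tsum_eq⟩ 1 fun b =>
        ((s b).norm_le_of_bounded (hs b) (ev_s hm b)).trans_eq (one_mul _).symm, s⟩

lemma ev_tw {C : ℝ} {θ : T → T → ℂ} (hθ : ∀ p q, ‖θ p q‖ ≤ C) {m M : T → ℂ} (hm : ∀ t, ‖m t‖ ≤ 1)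
    (h : ∀ p q, θ p q * M (.nd p q) = m p * m q) {e : B →L[ℂ] ℂ}
    (he : ∀ b : B, HasSum (fun t => b t * m t) (e b)) (b c : B) :
    HasSum (fun t => tw hθ b c t * M t) (e b * e c) := by
  have s : ∀ b : B, Summable fun t => ‖b t * m t‖ := fun b =>
    (hs b).summable.of_nonneg_of_le (fun _ => norm_nonneg _) (ev_s hm b)
  have := (he b).mul (he c) (summable_mul_of_summable_norm (f := fun t => b t * m t)
    (g := fun t => c t * m t) (s b) (s c))
  refine nd_sum (fun i => zero_mul _) (this.congr_fun fun x => ?_)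
  change θ x.1 x.2 * (b x.1 * c x.2) * _ = _
  linear_combination b x.1 * c x.2 * h x.1 x.2

section
variable {C : ℝ} {θ θ' : T → T → ℂ} (hθ : ∀ p q, ‖θ p q‖ ≤ C) (hθ' : ∀ p q, ‖θ' p q‖ ≤ C)

noncomputable def lift : (m : ℕ) → (E [×(m + 1)]→L[ℂ] ℂ) → (Fin 3 → B) → B
  | 0, q, x => ∑ i, q (fun _ => Pi.single i 1) • x i
  | m + 1, q, x => ∑ i, tw hθ (x i) (lift m (q.curryLeft (Pi.single i 1)) x)

noncomputable def stp (m : ℕ) (q : E [×(m + 2)]→L[ℂ] ℂ) (x : Fin 3 → B) : B :=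
  ∑ i, tw hθ' (x i) (lift hθ m (q.curryLeft (Pi.single i 1)) x)

lemma cl {m : ℕ} (q : E [×(m + 1)]→L[ℂ] ℂ) (i : Fin 3) : ‖q.curryLeft (Pi.single i 1)‖ ≤ ‖q‖ := by
  simpa [Pi.norm_single] using q.curryLeft.le_opNorm (Pi.single i 1)

lemma stp_zero (m : ℕ) (q) : stp hθ hθ' m q 0 = 0 := by simp [stp, tw_zero]

lemma lift_zero : ∀ m q, lift hθ m q 0 = 0
  | 0, _ => by simp [lift]
  | m + 1, q => stp_zero hθ hθ m q

lemma stp_lip {s : ℝ} (m : ℕ) (h : ∀ (q) (x y : Fin 3 → B), ‖x‖ ≤ s → ‖y‖ ≤ s →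
    ‖lift hθ m q x - lift hθ m q y‖ ≤ ‖q‖ * (3 * (6 * C * s) ^ m) * ‖x - y‖) (q) (x y : Fin 3 → B)
    (hx : ‖x‖ ≤ s) (hy : ‖y‖ ≤ s) :
    ‖stp hθ hθ' m q x - stp hθ hθ' m q y‖ ≤ ‖q‖ * (3 * (6 * C * s) ^ (m + 1)) * ‖x - y‖ := by
  have s0 := (norm_nonneg _).trans hx
  have C0 := (norm_nonneg _).trans (hθ (.lf 0) (.lf 0))
  rw [stp, stp, ← sum_sub_distrib]
  refine (norm_sum_le_of_le _ (n := fun _ => ‖q‖ * (6 * C * s) ^ (m + 1) * ‖x - y‖)
    fun i _ => ?_).trans_eq (by simp; ring)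
  have a := h (q.curryLeft (Pi.single i 1)) x 0 hx (by simpa)
  rw [lift_zero, sub_zero, sub_zero] at a
  rw [tw_sub]
  refine (norm_add_le_of_le (tw_le _ _ _) (tw_le _ _ _)).trans ?_
  have b := mul_le_mul (norm_le_pi_norm (x - y) i) (a.trans (mul_le_mul (mul_le_mul_of_nonneg_right
    (cl q i) (by positivity)) hx (norm_nonneg _) (by positivity))) (norm_nonneg _) (norm_nonneg _)
  have c := mul_le_mul ((norm_le_pi_norm y i).trans hy) ((h _ x y hx hy).trans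
    (mul_le_mul_of_nonneg_right (mul_le_mul_of_nonneg_right (cl q i) (by positivity))
      (norm_nonneg _))) (norm_nonneg _) s0
  refine (add_le_add (mul_le_mul_of_nonneg_left b C0) (mul_le_mul_of_nonneg_left c C0)).trans_eq ?_
  ring

lemma lift_lip {s : ℝ} : ∀ (m : ℕ) (q) (x y : Fin 3 → B), ‖x‖ ≤ s → ‖y‖ ≤ s →
    ‖lift hθ m q x - lift hθ m q y‖ ≤ ‖q‖ * (3 * (6 * C * s) ^ m) * ‖x - y‖
  | 0, q, x, y, _, _ => by
    rw [lift, lift, ← sum_sub_distrib]
    refine (norm_sum_le_of_le _ (n := fun _ => ‖q‖ * ‖x - y‖) fun i _ => ?_).trans_eq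
      (by simp; ring)
    rw [← smul_sub, norm_smul]
    exact mul_le_mul (by simpa [Pi.norm_single] using q.le_opNorm fun _ => Pi.single i 1)
      (norm_le_pi_norm (x - y) i) (norm_nonneg _) (norm_nonneg _)
  | m + 1, q, x, y, hx, hy => stp_lip hθ hθ m (lift_lip m) q x y hx hy

lemma cur {m : ℕ} (q : E [×(m + 1)]→L[ℂ] ℂ) (v : E) :
    ∑ i, v i * q.curryLeft (Pi.single i 1) (fun _ => v) = q fun _ => v := by
  have : q (fun _ => v) = q.curryLeft (∑ i, v i • Pi.single i 1) fun _ => v := by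
    rw [← pi_eq_sum_univ' v, ContinuousMultilinearMap.curryLeft_apply]
    congr 1
    ext1 i
    exact (Fin.cases rfl (fun _ => rfl) i)
  simp only [this, map_sum, map_smul, _root_.sum_apply, smul_apply, smul_eq_mul]

lemma ev_lift {e : B →L[ℂ] ℂ} (he : ∀ b c, e (tw hθ b c) = e b * e c) (x : Fin 3 → B) :
    ∀ m q, e (lift hθ m q x) = q fun _ i => e (x i)
  | 0, q => by
    rw [← cur]
    simp only [lift, map_sum, map_smul, smul_eq_mul, mul_comm]
    refine sum_congr rfl fun i _ => ?_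
    rw [ContinuousMultilinearMap.curryLeft_apply]
    congr 2
    ext1 j
    exact (Fin.cases rfl (fun j => j.elim0) j)
  | m + 1, q => by simp only [lift, map_sum, he, ev_lift he x m, cur]

end

end Pool.Agent.H.MP_0ef3a5_an
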