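import Pool.Agent.H.MP_0ef3a5_an.A

namespace Pool.Agent.H.MP_0ef3a5_an

open Filter Topology Real Finset Metric

noncomputable def mo (u : List (Fin 3)) (n : ℕ) : E [×n]→L[ℂ] ℂ :=
  (ContinuousMultilinearMap.mkPiAlgebra ℂ (Fin n) ℂ).compContinuousLinearMap
    fun l => ContinuousLinearMap.proj (u.getD l 0)

lemma mo_le (u n) : ‖mo u n‖ ≤ 1 := ContinuousMultilinearMap.opNorm_le_bound zero_le_one fun v => by
  simp only [mo, ContinuousMultilinearMap.compContinuousLinearMap_apply,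
    ContinuousMultilinearMap.mkPiAlgebra_apply, norm_prod, one_mul]
  exact prod_le_prod (fun _ _ => norm_nonneg _) fun l _ => norm_le_pi_norm (v l) _

lemma mo_ap (u : List (Fin 3)) (z : E) : mo u u.length (fun _ => z) = (u.map z).prod := by
  simp [mo, ← Fin.prod_univ_fun_getElem]

lemma pr_le (u : List (Fin 3)) (z : E) : ‖(u.map z).prod‖ ≤ ‖z‖ ^ u.length := by
  simpa [mo_ap] using (mo u u.length).le_of_opNorm_le (mo_le _ _) fun _ => z

lemma ana {c : T → ℂ} {r : NNReal} (r0 : 0 < r)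
    (h : Summable fun t => ‖c t‖ * (r : ℝ) ^ t.ls.length) :
    AnalyticAt ℂ (fun z : E => ∑' t, c t * (t.ls.map z).prod) 0 := by
  have k : ∀ (n : ℕ) (t : (fun t : T => t.ls.length) ⁻¹' {n}),
      ‖c t • mo t.1.ls n‖ ≤ ‖c t‖ * (r : ℝ) ^ t.1.ls.length * ((r : ℝ) ^ n)⁻¹ := fun n t => by
    rw [show t.1.ls.length = n from t.2, mul_inv_cancel_right₀ (by positivity), norm_smul]
    exact mul_le_of_le_one_right (norm_nonneg _) (mo_le _ _)
  have s := fun n => ((h.subtype _).mul_right _).of_norm_bounded (k n)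
  refine ⟨fun n => ∑' t : (fun t : T => t.ls.length) ⁻¹' {n}, c t • mo t.1.ls n, r,
    FormalMultilinearSeries.le_radius_of_bound _ (∑' t, ‖c t‖ * (r : ℝ) ^ t.ls.length) fun n => ?_,
    by simpa, fun {z} hz => ?_⟩
  · rw [← le_div_iff₀ (by positivity), div_eq_mul_inv]
    refine (tsum_of_norm_bounded ((h.subtype _).hasSum.mul_right _) (k n)).trans ?_
    gcongr
    exact h.tsum_subtype_le _ _ fun _ => by positivity
  · have hz : ‖z‖ ≤ r := by
      rw [mem_eball_zero_iff, enorm_eq_nnnorm, ENNReal.coe_lt_coe] at hz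
      exact hz.le
    rw [zero_add]
    refine ((h.of_norm_bounded fun t => ?_).hasSum.tsum_fiberwise fun t => t.ls.length).congr_fun
      fun n => ?_
    · rw [norm_mul]
      gcongr
      exact (pr_le _ _).trans (by gcongr)
    · rw [ContinuousMultilinearMap.tsum_eval (s n)]
      refine tsum_congr fun ⟨t, ht⟩ => ?_
      obtain rfl : t.ls.length = n := ht
      rw [smul_apply, mo_ap, smul_eq_mul]

lemma fix {C : ℝ} (C0 : 0 < C) {θ : T → T → ℂ} (hθ : ∀ p q, ‖θ p q‖ ≤ C) {η : Fin 3 → T → T → ℂ}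
    (hη : ∀ j p q, ‖η j p q‖ ≤ C) {q : (m : ℕ) → Fin 3 → E [×(m + 2)]→L[ℂ] ℂ} {K ρ : ℝ}
    (K0 : 0 < K) (ρ0 : 0 < ρ) (hq : ∀ m j, ‖q m j‖ ≤ K / ρ ^ (m + 2)) :
    ∃ s, 0 < s ∧ s ≤ ρ ∧ ∀ g : Fin 3 → B, ‖g‖ ≤ s / 2 → ∃ x : Fin 3 → B, ‖x‖ ≤ s ∧
      ∀ j, HasSum (fun m => stp hθ (hη j) m (q m j) x) (x j - g j) := by
  obtain ⟨s, s0, s1, s2, s3⟩ : ∃ s, 0 < s ∧ s ≤ ρ ∧ 6 * C * s / ρ ≤ 2⁻¹ ∧
      36 * K * C * s / ρ ^ 2 ≤ 2⁻¹ := by
    refine ⟨min ρ (min (ρ / (12 * C)) (ρ ^ 2 / (72 * K * C))), by positivity, min_le_left _ _, ?_, ?_⟩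
    · exact (div_le_div_of_nonneg_right (mul_le_mul_of_nonneg_left (min_le_of_right_le
        (min_le_left _ _)) (by positivity)) ρ0.le).trans_eq (by field_simp; norm_num)
    · exact (div_le_div_of_nonneg_right (mul_le_mul_of_nonneg_left (min_le_of_right_le
        (min_le_right _ _)) (by positivity)) (by positivity)).trans_eq (by field_simp; norm_num)
  have g2 : HasSum (fun n : ℕ => (2⁻¹ : ℝ) ^ n) 2 := by simpa using hasSum_geometric_two
  have k : ∀ j (x y : Fin 3 → B), ‖x‖ ≤ s → ‖y‖ ≤ s → ∀ m, ‖stp hθ (hη j) m (q m j) x -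
      stp hθ (hη j) m (q m j) y‖ ≤ 4⁻¹ * ‖x - y‖ * 2⁻¹ ^ m := fun j x y hx hy m => by
    refine (stp_lip hθ (hη j) m (lift_lip hθ m) _ x y hx hy).trans ?_
    have := mul_le_mul s3 (pow_le_pow_left₀ (by positivity) s2 m) (by positivity) (by norm_num)
    rw [mul_right_comm 4⁻¹]
    refine mul_le_mul_of_nonneg_right ((mul_le_mul_of_nonneg_right (hq m j)
      (by positivity)).trans ?_) (norm_nonneg _)
    refine le_trans (le_of_eq ?_) ((mul_le_mul_of_nonneg_left this
      (show (0 : ℝ) ≤ 2⁻¹ by norm_num)).trans_eq (by ring))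
    rw [div_pow]
    field_simp
    ring
  have sm : ∀ j (x : Fin 3 → B), ‖x‖ ≤ s → Summable fun m => stp hθ (hη j) m (q m j) x :=
    fun j x hx => (g2.summable.mul_left _).of_norm_bounded fun m => by
      simpa only [stp_zero, sub_zero] using k j x 0 hx (by simpa using s0.le) m
  have A : ApproximatesLinearOn (fun (x : Fin 3 → B) => x - fun j => ∑' m, stp hθ (hη j) m (q m j) x)
      (ContinuousLinearMap.id ℂ _) (closedBall 0 s) 2⁻¹ := fun x hx y hy => by
    rw [mem_closedBall_zero_iff] at hx hy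
    refine (pi_norm_le_iff_of_nonneg (by positivity)).2 fun j => ?_
    have := ((sm j x hx).hasSum.sub (sm j y hy).hasSum).norm_le_of_bounded (g2.mul_left _)
      (k j x y hx hy)
    rw [norm_sub_rev] at this
    refine le_of_eq_of_le (congrArg _ ?_) (this.trans_eq (by simp; ring))
    simp only [Pi.sub_apply, ContinuousLinearMap.id_apply]
    abel
  refine ⟨s, s0, s1, fun g hg => ?_⟩
  obtain ⟨x, hx, e⟩ := A.surjOn_closedBall_of_nonlinearRightInverse ⟨id, 1, by simp, fun _ => rfl⟩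
    s0.le subset_rfl (a := g) (by
      simp only [stp_zero, tsum_zero]
      simp [← Pi.zero_def]
      linarith)
  rw [mem_closedBall_zero_iff] at hx
  exact ⟨x, hx, fun j => by simpa [← e] using (sm j x hx).hasSum⟩

theorem diag {lam : E} (hl : ‖lam‖ ≤ 1) {l : List (Fin 3) → ℝ} {κ C : ℝ} (l0 : ∀ u, 0 ≤ l u)
    (l1 : ∀ u, l u ≤ κ * u.length) (l2 : ∀ u v, u ≠ [] → v ≠ [] → ∀ j,
      exp (l u + l v) ≤ C * ‖((u ++ v).map lam).prod - lam j‖ * exp (l (u ++ v)))
    {f : E → E} (hf : AnalyticAt ℂ f 0) (f0 : f 0 = 0) (fd : ∀ v, fderiv ℂ f 0 v = lam * v) :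
    ∃ (φ : E → E) (s : ℂ), s ≠ 0 ∧ AnalyticAt ℂ φ 0 ∧ φ 0 = 0 ∧
      HasFDerivAt φ (s • ContinuousLinearMap.id ℂ E) 0 ∧ ∀ᶠ z in 𝓝 0, f (φ z) = φ (lam * z) := by
  classical
  let θ : T → T → ℂ := fun p q => exp (l p.ls + l q.ls - l (p.ls ++ q.ls))
  let D : Fin 3 → T → T → ℂ := fun j p q => ((p.ls ++ q.ls).map lam).prod - lam j
  have k : ∀ j p q, ‖θ p q‖ ≤ C * ‖D j p q‖ := fun j p q => by
    rw [Complex.norm_real, norm_of_nonneg (exp_pos _).le, exp_sub, div_le_iff₀ (exp_pos _)]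
    exact l2 _ _ p.ne q.ne j
  have k0 : ∀ j p q, 0 < C * ‖D j p q‖ := fun j p q => lt_of_lt_of_le (by
    rw [Complex.norm_real, norm_of_nonneg (exp_pos _).le]; exact exp_pos _) (k j p q)
  have C0 : 0 < C := pos_of_mul_pos_left (k0 0 (.lf 0) (.lf 0)) (norm_nonneg _)
  have D0 : ∀ j p q, D j p q ≠ 0 := fun j p q c => by simpa [c] using k0 j p q
  have hθ : ∀ p q, ‖θ p q‖ ≤ 2 * C := fun p q => (k 0 p q).trans (by
    have := (norm_sub_le _ _).trans (add_le_add ((pr_le (p.ls ++ q.ls) lam).trans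
      (pow_le_one₀ (norm_nonneg _) hl)) ((norm_le_pi_norm lam 0).trans hl))
    nlinarith)
  have hη : ∀ j p q, ‖θ p q / D j p q‖ ≤ 2 * C := fun j p q => by
    rw [norm_div, div_le_iff₀ (norm_pos_iff.2 (D0 j p q))]
    nlinarith [k j p q, k0 j p q]
  obtain ⟨p, r, hp⟩ := hf
  obtain ⟨ρ, ρ0, ρ1⟩ := ENNReal.lt_iff_exists_nnreal_btwn.1 hp.r_pos
  rw [ENNReal.coe_pos] at ρ0
  obtain ⟨K, K0, hK⟩ := p.norm_le_div_pow_of_pos_of_lt_radius ρ0 (ρ1.trans_le hp.r_le)
  obtain ⟨s, s0, s1, hs'⟩ := fix (by positivity) hθ hη (q := fun m j =>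
    (ContinuousLinearMap.proj j).compContinuousMultilinearMap (p (m + 2))) K0 ρ0 fun m j =>
      le_trans (ContinuousMultilinearMap.opNorm_le_bound (norm_nonneg _) fun v =>
        (norm_le_pi_norm _ j).trans ((p _).le_opNorm v)) (hK _)
  obtain ⟨x, x1, x2⟩ := hs' (fun j => lp.single 1 (.lf j) ((s / 2 * exp (-l [j]) : ℝ) : ℂ))
    ((pi_norm_le_iff_of_nonneg (by positivity)).2 fun j => by
      rw [lp.norm_single one_pos, Complex.norm_real, norm_of_nonneg (by positivity)]
      exact mul_le_of_le_one_right (by positivity) (exp_le_one_iff.2 (neg_nonpos.2 (l0 _))))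
  let m : E → T → ℂ := fun z t => exp (l t.ls) * (t.ls.map z).prod
  have m0 : ∀ z t, ‖m z t‖ ≤ (exp κ * ‖z‖) ^ t.ls.length := fun z t => by
    rw [norm_mul, Complex.norm_real, norm_of_nonneg (exp_pos _).le, mul_pow, ← exp_nat_mul]
    gcongr
    exacts [(l1 _).trans_eq (mul_comm _ _), pr_le _ _]
  have m1 : ∀ z, exp κ * ‖z‖ ≤ 1 → ∀ t, ‖m z t‖ ≤ 1 := fun z h t =>
    (m0 z t).trans (pow_le_one₀ (by positivity) h)
  have ev : ∀ᶠ z : E in 𝓝 0, exp κ * ‖z‖ ≤ 1 :=
    (ContinuousAt.eventually_lt (by fun_prop) continuousAt_const (by simp)).mono fun _ h => h.le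
  have sg : ∀ (M : T → ℂ) j a, HasSum (fun t => (lp.single 1 (T.lf j) a : B) t * M t)
      (a * M (.lf j)) := fun M j a => by
    simpa using hasSum_single (f := fun t => (lp.single 1 (T.lf j) a : B) t * M t) (T.lf j)
      fun t ht => by rw [lp.single_apply_ne _ _ _ ht, zero_mul]
  have ml : ∀ z j, ((s / 2 * exp (-l [j]) : ℝ) : ℂ) * m z (.lf j) = (s / 2 : ℝ) * z j := fun z j => by
    simp only [m, T.ls, List.map_singleton, List.prod_singleton, ← mul_assoc, ← Complex.ofReal_mul]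
    rw [mul_assoc, ← exp_add, neg_add_cancel, exp_zero, mul_one]
  have z0 : ∀ t, m 0 t = 0 := fun t => norm_le_zero_iff.1 ((m0 0 t).trans_eq (by simp [t.ne]))
  refine ⟨fun z j => ∑' t, x j t * m z t, (s / 2 : ℝ), by simpa using s0.ne',
    analyticAt_pi_iff.2 fun j => ?_, funext fun _ => by simp [z0], ?_, ev.mono fun z hz => ?_⟩
  · simp only [m, ← mul_assoc]
    refine ana (r := .mk (exp (-κ)) (exp_pos _).le) (exp_pos _) ((hs (x j)).summable.of_nonneg_of_le
      (fun _ => by positivity) fun t => ?_)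
    rw [norm_mul, mul_assoc, Complex.norm_real, norm_of_nonneg (exp_pos _).le, NNReal.coe_mk,
      ← exp_nat_mul, ← exp_add]
    exact mul_le_of_le_one_right (norm_nonneg _) (exp_le_one_iff.2 (by linarith [l1 t.ls]))
  · refine HasFDerivAt.of_isLittleO ((Asymptotics.IsBigO.of_bound (2 * s * exp κ ^ 2)
      (ev.mono fun z hz => ?_)).trans_isLittleO (Asymptotics.isLittleO_norm_pow_id
        (E' := E) one_lt_two |>.congr_right fun _ => (sub_zero _).symm))
    refine (pi_norm_le_iff_of_nonneg (by positivity)).2 fun j => ?_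
    obtain ⟨e, he⟩ := ev_ex (m1 z hz)
    set g : B := lp.single 1 (.lf j) ((s / 2 * exp (-l [j]) : ℝ) : ℂ)
    have a := (he (x j - g)).norm_le_of_bounded ((hs (x j - g)).mul_right ((exp κ * ‖z‖) ^ 2))
      fun t => by
        cases t with
        | lf i =>
          have := ((x2 j).mapL (lp.evalCLM ℂ (fun _ : T => ℂ) 1 (.lf i))).unique
            (hasSum_zero.congr_fun fun m => by
              simp only [stp, map_sum]; exact sum_eq_zero fun _ _ => rfl)
          rw [show (x j - g) (.lf i) = 0 from this]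
          simp
        | nd a b =>
          rw [norm_mul]
          gcongr
          refine (m0 _ _).trans (pow_le_pow_of_le_one (by positivity) hz ?_)
          have := List.length_pos_iff.2 a.ne
          have := List.length_pos_iff.2 b.ne
          simp only [T.ls, List.length_append]
          omega
    have b : ‖x j - g‖ ≤ 2 * s := (norm_sub_le _ _).trans (by
      have := (norm_le_pi_norm x j).trans x1
      rw [lp.norm_single one_pos, Complex.norm_real, norm_of_nonneg (by positivity)]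
      nlinarith [exp_le_one_iff.2 (neg_nonpos.2 (l0 [j]))])
    rw [map_sub, (he g).unique (sg _ j _), ml, ← (he (x j)).tsum_eq] at a
    refine le_of_eq_of_le (by simp [z0]) (a.trans ((mul_le_mul_of_nonneg_right b
      (by positivity)).trans_eq ?_))
    simp [mul_pow, mul_assoc]
  have hz' : exp κ * ‖lam * z‖ ≤ 1 := le_trans (mul_le_mul_of_nonneg_left ((norm_mul_le _ _).trans
    (mul_le_of_le_one_left (norm_nonneg _) hl)) (exp_pos _).le) hz
  obtain ⟨e, he⟩ := ev_ex (m1 z hz)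
  obtain ⟨e', he'⟩ := ev_ex (m1 _ hz')
  simp only [(he _).tsum_eq, (he' _).tsum_eq]
  have mp : ∀ a b : T, θ a b * m z (.nd a b) = m z a * m z b := fun a b => by
    simp only [θ, m, T.ls, List.map_append, List.prod_append, ← mul_assoc, ← Complex.ofReal_mul,
      ← exp_add, sub_add_cancel]
    rw [exp_add]
    push_cast
    ring
  have y1 : ‖fun j => e (x j)‖ ≤ s := (pi_norm_le_iff_of_nonneg s0.le).2 fun j =>
    ((he _).norm_le_of_bounded (hs _) (ev_s (m1 z hz) _)).trans ((norm_le_pi_norm x j).trans x1)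
  have S := (hasSum_nat_add_iff' 2).2 (hp.hasSum (y := fun j => e (x j)) (by
    rw [mem_eball_zero_iff, enorm_eq_nnnorm]
    exact lt_of_le_of_lt (ENNReal.coe_le_coe.2 (y1.trans s1)) ρ1))
  rw [sum_range_succ, sum_range_one, hp.coeff_zero, f0, zero_add, zero_add,
    show p 1 (fun _ j => e (x j)) = lam * fun j => e (x j) by
      rw [← fd, hp.hasFPowerSeriesAt.fderiv_eq]; simp; congr 1; ext1 i; simp [Fin.snoc]] at S
  ext j
  have a := ((x2 j).mapL (e' - lam j • e)).unique ((Pi.hasSum.1 S j).congr_fun fun n => by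
    have : ∀ b c, (e' - lam j • e) (tw (hη j) b c) = e b * e c := fun b c =>
      ((he' _).sub ((he _).mul_left (lam j))).unique ((ev_tw (hη j) (m1 z hz)
        (M := fun t => m (lam * z) t - lam j * m z t) (fun a b => by
          rw [← mp, div_mul_eq_mul_div, div_eq_iff (D0 j a b)]
          simp only [m, D, T.ls, show lam * z = fun i => lam i * z i from rfl, List.prod_map_mul]
          ring) he b c).congr_fun fun t => by ring)
    simp only [stp, map_sum, this, ev_lift hθ fun b c => (he _).unique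
      (ev_tw hθ (m1 z hz) mp he b c), cur]
    rfl)
  simp only [map_sub, sub_apply, smul_apply, (he _).unique (sg _ j _), (he' _).unique (sg _ j _), ml,
    Pi.sub_apply, Pi.mul_apply, smul_eq_mul] at a
  linear_combination -a

end Pool.Agent.H.MP_0ef3a5_an
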