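import Pool.Agent.H.MP_0ef3a5_an.B
import Pool.Agent.H.MP_9ac7bc_an.A

namespace Pool.Agent.H.MP_0ef3a5_an

open Filter Topology Real Finset Metric Pool.Agent.H.MP_9ac7bc_an

lemma g2 : HasSum (fun n : ℕ => (2⁻¹ : ℝ) ^ n) 2 := by simpa using hasSum_geometric_two

lemma rk {x : ℝ} {K : ℕ} (h : (2 ^ (K + 1))⁻¹ ≤ x) :
    ∃ r ≤ K, 1 ≤ 2 * x * exp r ∧ ∀ k < r, x < (2 ^ (k + 1))⁻¹ := by
  classical
  have ex : ∃ k, ¬x < (2 ^ (k + 1))⁻¹ := ⟨K, not_lt.2 h⟩
  refine ⟨Nat.find ex, Nat.find_min' ex (not_lt.2 h), ?_, fun k hk => not_not.1 (Nat.find_min ex hk)⟩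
  have r2 := Nat.find_spec ex
  rw [not_lt, inv_le_iff_one_le_mul₀ (by positivity), pow_succ] at r2
  nlinarith [mul_le_mul_of_nonneg_left (tpe (Nat.find ex)) (le_trans (by positivity) h)]

lemma sep (m d : ℕ) (w : ℂ) : ‖lam ^ d - 1‖ ≤ ‖lam ^ (m + d) - w‖ + ‖lam ^ m - w‖ := by
  have : ‖lam ^ d - 1‖ = ‖lam ^ (m + d) - w - (lam ^ m - w)‖ := by
    rw [sub_sub_sub_cancel_right, pow_add, ← mul_sub_one, norm_mul, norm_pow, lam_norm]
    simp
  exact this.trans_le (norm_sub_le _ _)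

lemma k1 (k m : ℕ) (m0 : 0 < m) (h : ‖lam ^ m - 1‖ < (2 ^ k)⁻¹) : (2 : ℝ) ^ k ≤ m := by
  have := (lam_lo m m0).trans (mul_le_mul_of_nonneg_left h.le m.cast_nonneg)
  rwa [← div_eq_mul_inv, one_le_div (by positivity)] at this

lemma hf (k : ℕ) : ((2 : ℝ) ^ (k + 1))⁻¹ + (2 ^ (k + 1))⁻¹ = (2 ^ k)⁻¹ := by field_simp; ring

lemma dav : ∃ L : ℕ → ℝ, (∀ m, 0 ≤ L m) ∧ (∀ m, L m ≤ 4 * m) ∧
    ∀ p q, exp (L p + L q) ≤ 2 * ‖lam ^ (p + q + 1) - 1‖ * exp (L (p + q + 1)) := by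
  classical
  choose g g0 g1 g3 using fun k : ℕ => dav1 (fun m => ‖lam ^ m - 1‖ < (2 ^ (k + 1))⁻¹) (Q := 2 ^ k)
    (by positivity) (fun m m0 h => k1 k m m0 (by
      have : (0 : ℝ) < (2 ^ (k + 1))⁻¹ := by positivity
      linarith [hf k])) fun m d _ d0 a b => k1 k d d0 (by linarith [hf k, sep m d 1])
  have b : ∀ m k, g k m ≤ 2 * m * 2⁻¹ ^ k := fun m k => by simpa [div_eq_mul_inv] using g1 k m
  have s := fun m => (g2.summable.mul_left _).of_nonneg_of_le (fun k => g0 k m) (b m)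
  refine ⟨fun m => ∑' k, g k m, fun m => tsum_nonneg fun k => g0 k m, fun m =>
    (hasSum_le (b m) (s m).hasSum (g2.mul_left _)).trans_eq (by ring), fun p q => ?_⟩
  obtain ⟨r, -, r1, r2⟩ := rk (x := ‖lam ^ (p + q + 1) - 1‖) (K := p + q + 1) (not_lt.1 fun c => by
    have := k1 _ _ (by omega) c
    have : 2 ^ (p + q + 1 + 1) ≤ p + q + 1 := by exact_mod_cast this
    have := Nat.lt_two_pow_self (n := p + q + 1 + 1)
    omega)
  have := hasSum_le (fun k => (add_le_add_right (by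
    split_ifs with a b
    exacts [le_rfl, (b (r2 k (mem_range.1 a))).elim, zero_le_one, le_rfl]) _).trans (g3 k p q))
    (((s p).hasSum.add (s q).hasSum).add (hasSum_sum_of_ne_finset_zero (s := range r)
      (f := fun k => if k ∈ range r then (1 : ℝ) else 0) fun k hk => if_neg hk)) (s _).hasSum
  rw [sum_congr rfl fun k hk => if_pos hk, sum_const, card_range, nsmul_one] at this
  refine (le_mul_of_one_le_left (exp_pos _).le r1).trans ?_
  rw [mul_assoc, ← exp_add]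
  gcongr
  linarith

lemma hi (M : ℕ) : ∃ q, M ≤ q ∧ q ≤ 4 * M + 1 ∧ q * ‖lam ^ q - 1‖ ≤ 7 := by
  obtain ⟨q, q0, q2, h⟩ := exists_nat_abs_mul_sub_round_le √2 (n := 4 * M + 1) (by omega)
  have d := dio q q0 _ (abs_sub_round _)
  have a : (0 : ℝ) < (4 * M + 1 : ℕ) + 1 := by positivity
  rw [le_div_iff₀ a] at h
  have q1 : (q : ℝ) ≤ (4 * M + 1 : ℕ) := by exact_mod_cast q2
  have z := abs_nonneg (q * √2 - round (q * √2))
  refine ⟨q, ?_, q2, ?_⟩
  · by_contra c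
    have : (q : ℝ) ≤ M := by exact_mod_cast (not_le.1 c).le
    push_cast at h
    have hz : 0 < |q * √2 - round (q * √2)| := z.lt_of_ne fun e => by
      rw [← e] at d; linarith
    nlinarith
  · rw [lam_pow q (round (q * √2))]
    refine (mul_le_mul_of_nonneg_left norm_exp_I_mul_ofReal_sub_one_le q.cast_nonneg).trans ?_
    rw [norm_mul, norm_eq_abs, norm_eq_abs, abs_of_pos two_pi_pos]
    have : q * |q * √2 - round (q * √2)| ≤ 1 := by nlinarith
    nlinarith [pi_lt_d2, pi_pos]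

lemma nu_ex : ∃ ν : ℂ, ‖ν‖ = 1 ∧ (∀ a, (2 ^ (a + 6 + 1))⁻¹ ≤ ‖lam ^ a - ν‖) ∧
    ∀ N, ∃ a ≥ N, ‖lam ^ a - ν‖ ≤ 2 * (2 ^ a)⁻¹ := by
  choose q q1 q2 q3 using fun a : ℕ => hi (2 ^ a * 8)
  let a : ℕ → ℕ := fun i => Nat.rec 0 (fun _ x => x + q x) i
  have a1 : ∀ i, a (i + 1) = a i + q (a i) := fun _ => rfl
  have a2 : ∀ i, a i + 8 ≤ a (i + 1) := fun i => by
    have := q1 (a i)
    have := Nat.one_le_two_pow (n := a i)
    rw [a1]
    omega
  have a3 : StrictMono a := strictMono_nat_of_lt_succ fun i => by linarith [a2 i]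
  have d : ∀ i n, dist (lam ^ a (i + n)) (lam ^ a (i + (n + 1))) ≤ 2 * (2 ^ a i)⁻¹ / 2 / 2 ^ n :=
    fun i n => by
      have b : ((2 ^ a (i + n) * 8 : ℕ) : ℝ) ≤ q (a (i + n)) := by exact_mod_cast q1 _
      have c : (2 : ℝ) ^ (a i + n) ≤ 2 ^ a (i + n) :=
        pow_le_pow_right₀ one_le_two (by linarith [a3.add_le_nat n i, add_comm n i ▸ a3.add_le_nat n i])
      rw [← add_assoc, a1, dist_comm, dist_eq_norm, pow_add, ← mul_sub_one, norm_mul, norm_pow,
        lam_norm, one_pow, one_mul, mul_div_cancel_left₀ _ two_ne_zero, div_eq_mul_inv, ← mul_inv,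
        ← pow_add, ← one_div, le_div_iff₀ (by positivity)]
      push_cast at b
      nlinarith [q3 (a (i + n)), norm_nonneg (lam ^ q (a (i + n)) - 1)]
  obtain ⟨ν, hν⟩ := cauchySeq_tendsto_of_complete (cauchySeq_of_le_geometric_two
    (f := fun n => lam ^ a n) fun n => by simpa only [zero_add] using d 0 n)
  have e : ∀ i, ‖lam ^ a i - ν‖ ≤ 2 * (2 ^ a i)⁻¹ := fun i => by
    rw [← dist_eq_norm]
    exact dist_le_of_le_geometric_two_of_tendsto₀ (f := fun n => lam ^ a (i + n)) (d i)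
      (hν.comp (tendsto_add_atTop_nat i) |>.congr fun n => by simp [add_comm])
  refine ⟨ν, tendsto_nhds_unique hν.norm (by simp [lam_norm]), fun x => ?_,
    fun N => ⟨_, a3.le_apply, e N⟩⟩
  have ex : ∃ i, x < a (i + 1) := ⟨x, a3.le_apply⟩
  obtain ⟨i, i1, i2⟩ : ∃ i, a i ≤ x ∧ x < a (i + 1) := ⟨Nat.find ex, by
    rcases h : Nat.find ex with _ | i
    exacts [Nat.zero_le _, not_lt.1 (Nat.find_min ex (by omega))], Nat.find_spec ex⟩
  obtain ⟨t, ht⟩ := Nat.exists_eq_add_of_lt i2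
  have s := sep x (t + 1) ν
  have l := lam_lo (t + 1) t.succ_pos
  have u : ((t + 1 : ℕ) : ℝ) ≤ 40 * 2 ^ a i := by
    have := q2 (a i)
    have := Nat.one_le_two_pow (n := a i)
    exact_mod_cast (by rw [a1] at ht; omega : t + 1 ≤ 40 * 2 ^ a i)
  have v : ((2 : ℝ) ^ a (i + 1))⁻¹ ≤ (2 ^ (a i + 8))⁻¹ :=
    inv_anti₀ (by positivity) (pow_le_pow_right₀ one_le_two (a2 i))
  have w : ((2 : ℝ) ^ (x + 6 + 1))⁻¹ ≤ (2 ^ (a i + 7))⁻¹ :=
    inv_anti₀ (by positivity) (pow_le_pow_right₀ one_le_two (by omega))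
  have := e (i + 1)
  rw [← add_assoc, ← ht] at s
  have y : (2 ^ a i)⁻¹ ≤ 40 * ‖lam ^ (t + 1) - 1‖ := by
    rw [inv_le_iff_one_le_mul₀ (by positivity)]
    nlinarith [mul_le_mul_of_nonneg_right u (norm_nonneg (lam ^ (t + 1) - 1))]
  rw [pow_add _ (a i) 8, mul_inv] at v
  rw [pow_add _ (a i) 7, mul_inv] at w
  have : (0 : ℝ) < (2 ^ a i)⁻¹ := by positivity
  linarith

lemma cnt {ν : ℂ} (h : ∀ a, (2 ^ (a + 6 + 1))⁻¹ ≤ ‖lam ^ a - ν‖) : ∃ r : ℕ → ℕ,
    (∀ a, 1 ≤ 2 * ‖lam ^ a - ν‖ * exp (r a)) ∧ ∀ a, ∑ i ∈ range (a + 1), (r i : ℝ) ≤ 6 * (a + 1) := by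
  choose r r0 r1 r2 using fun a => rk (h a)
  refine ⟨r, r1, fun a => ?_⟩
  have A : ∀ k, #{i ∈ range (a + 1) | k < r i} ≤ a / 2 ^ k + 1 := fun k => by
    refine (card_le_card_of_injOn (· / 2 ^ k) (t := range (a / 2 ^ k + 1)) (fun i hi => ?_)
      (fun i hi j hj c => ?_)).trans_eq (card_range _)
    · exact mem_range.2 (Nat.lt_succ_of_le (Nat.div_le_div_right
        (Nat.le_of_lt_succ (mem_range.1 (mem_filter.1 hi).1))))
    · by_contra h
      wlog h' : i < j generalizing i j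
      · exact this j hj i hi c.symm (Ne.symm h) (by omega)
      obtain ⟨d, rfl⟩ := Nat.exists_eq_add_of_lt h'
      have := k1 k (d + 1) d.succ_pos (by
        have := sep i (d + 1) ν
        rw [← add_assoc] at this
        linarith [hf k, r2 _ _ (mem_filter.1 hi).2, r2 _ _ (mem_filter.1 hj).2])
      have : 2 ^ k ≤ d + 1 := by exact_mod_cast this
      have := Nat.div_le_div_right (c := 2 ^ k) (show i + 2 ^ k ≤ i + d + 1 by omega)
      rw [Nat.add_div_right _ (by positivity)] at this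
      simp only at c
      omega
  have B : ∑ i ∈ range (a + 1), r i = ∑ k ∈ range (a + 6), #{i ∈ range (a + 1) | k < r i} := by
    simp only [card_filter]
    rw [sum_comm]
    refine sum_congr rfl fun i hi => ?_
    rw [← card_filter]
    refine (card_range (r i)).symm.trans (congrArg _ ?_)
    ext k
    have := r0 i
    simp only [mem_range, mem_filter] at hi ⊢
    omega
  rw [← Nat.cast_sum, B, Nat.cast_sum]
  refine (sum_le_sum fun k _ => show _ ≤ (a : ℝ) * 2⁻¹ ^ k + 1 from (Nat.cast_le.2 (A k)).trans (by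
    simpa [div_eq_mul_inv] using Nat.cast_div_le (α := ℝ) (m := a) (n := 2 ^ k))).trans ?_
  rw [sum_add_distrib, ← mul_sum]
  have := mul_le_mul_of_nonneg_left (sum_le_hasSum (range (a + 6)) (fun _ _ => by positivity) g2)
    (a.cast_nonneg : (0 : ℝ) ≤ a)
  simp only [sum_const, card_range, nsmul_one]
  push_cast
  linarith [(a.cast_nonneg : (0 : ℝ) ≤ a)]

lemma dvs {ν : ℂ} (h : ‖ν‖ = 1) (a b c m : ℕ) (hm : a + b + c = m + 1) (j : Fin 3) :
    ‖lam ^ m - 1‖ ≤ 16 * ‖lam ^ a * 2⁻¹ ^ b * (ν / 4) ^ c - ![lam, 2⁻¹, ν / 4] j‖ ∨ b = 2 ∧ c = 0 ∧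
      ‖lam ^ a - ν‖ = 4 * ‖lam ^ a * 2⁻¹ ^ b * (ν / 4) ^ c - ![lam, 2⁻¹, ν / 4] j‖ := by
  have z := norm_nonneg (lam ^ m - 1)
  by_cases e : b + 2 * c = j
  · fin_cases j
    · obtain ⟨rfl, rfl, rfl⟩ : a = m + 1 ∧ b = 0 ∧ c = 0 := by simp at e; omega
      left
      simp [pow_succ, ← sub_one_mul, lam_norm]
      linarith
    · obtain ⟨rfl, rfl, rfl⟩ : a = m ∧ b = 1 ∧ c = 0 := by simp at e; omega
      left
      simp [← sub_one_mul]
      linarith
    · obtain ⟨rfl, rfl, rfl⟩ | ⟨rfl, rfl⟩ : (a = m ∧ b = 0 ∧ c = 1) ∨ (b = 2 ∧ c = 0) := by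
        simp at e; omega
      · left
        simp [← sub_one_mul, h]
        linarith
      · refine .inr ⟨rfl, rfl, ?_⟩
        rw [show lam ^ a - ν = 4 * (lam ^ a * 2⁻¹ ^ 2 * (ν / 4) ^ 0 - ν / 4) by ring]
        simp
  left
  have n1 : ‖lam ^ a * 2⁻¹ ^ b * (ν / 4) ^ c‖ = 2⁻¹ ^ (b + 2 * c) := by
    simp [lam_norm, h, pow_add, pow_mul]; norm_num
  have n2 : ‖![lam, 2⁻¹, ν / 4] j‖ = 2⁻¹ ^ (j : ℕ) := by
    fin_cases j <;> simp [lam_norm, h]
    norm_num
  have n3 := abs_norm_sub_norm_le (lam ^ a * 2⁻¹ ^ b * (ν / 4) ^ c) (![lam, 2⁻¹, ν / 4] j)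
  have n4 := norm_sub_le (lam ^ m) 1
  rw [norm_pow, lam_norm, one_pow, norm_one] at n4
  rw [n1, n2, abs_le] at n3
  have p : ∀ s t : ℕ, s < t → s ≤ 2 → (2⁻¹ : ℝ) ^ t + 8⁻¹ ≤ 2⁻¹ ^ s := fun s t h1 h2 => by
    have := pow_le_pow_of_le_one (show (0 : ℝ) ≤ 2⁻¹ by norm_num) (by norm_num) (show s + 1 ≤ t from h1)
    have := pow_le_pow_of_le_one (show (0 : ℝ) ≤ 2⁻¹ by norm_num) (by norm_num) h2
    rw [pow_succ] at *
    linarith
  rcases lt_or_gt_of_ne e with e | e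
  · linarith [p _ _ e (by omega)]
  · linarith [p _ _ e (by omega)]

lemma lst (v : E) (u : List (Fin 3)) :
    (u.map v).prod = v 0 ^ u.count 0 * v 1 ^ u.count 1 * v 2 ^ u.count 2 ∧
      u.length = u.count 0 + u.count 1 + u.count 2 := by
  induction u with
  | nil => simp
  | cons i u ih => fin_cases i <;> simp [ih] <;> constructor <;> ring

theorem wts {ν : ℂ} (h : ‖ν‖ = 1) (h' : ∀ a, (2 ^ (a + 6 + 1))⁻¹ ≤ ‖lam ^ a - ν‖) :
    ∃ l : List (Fin 3) → ℝ, (∀ u, 0 ≤ l u) ∧ (∀ u, l u ≤ 10 * u.length) ∧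
      ∀ u v, u ≠ [] → v ≠ [] → ∀ j, exp (l u + l v) ≤
        32 * ‖((u ++ v).map ![lam, 2⁻¹, ν / 4]).prod - ![lam, 2⁻¹, ν / 4] j‖ * exp (l (u ++ v)) := by
  obtain ⟨L, L0, L1, L2⟩ := dav
  obtain ⟨r, r1, r2⟩ := cnt h'
  let G : ℕ → ℝ := fun a => ∑ i ∈ range a, r i
  have G0 : ∀ a, 0 ≤ G a := fun a => by positivity
  have G1 : ∀ a b, a ≤ b → G a ≤ G b := fun a b h =>
    sum_le_sum_of_subset_of_nonneg (range_subset_range.2 h) fun _ _ _ => by positivity
  let X : ℕ → ℕ → ℕ → ℝ := fun a b c =>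
    if b = 2 ∧ c = 0 then G (a + 1) else if b + 2 * c ≤ 2 then 0 else 6 * (a + b + c)
  have X0 : ∀ a b c, 0 ≤ X a b c := fun a b c => by
    have := G0 (a + 1)
    simp only [X]
    split_ifs <;> positivity
  have X1 : ∀ a b c, X a b c ≤ 6 * (a + b + c) := fun a b c => by
    simp only [X]
    split_ifs with e
    · rw [e.1, e.2]; push_cast; linarith [r2 a]
    · positivity
    · rfl
  have X2 : ∀ a b c a' b' c', 0 < a + b + c → 0 < a' + b' + c' → X a b c + X a' b' c' +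
      (if b + b' = 2 ∧ c + c' = 0 then (r (a + a') : ℝ) else 0) ≤ X (a + a') (b + b') (c + c') :=
    fun a b c a' b' c' p p' => by
      by_cases e : b + b' = 2 ∧ c + c' = 0
      · have : X a b c + X a' b' c' ≤ G (a + a') := by
          simp only [X]
          split_ifs
          any_goals omega
          exacts [by simpa using G1 _ _ (by omega), by simpa using G1 _ _ (by omega), by simp [G0]]
        simp only [X, if_pos e, G, sum_range_succ] at this ⊢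
        linarith
      by_cases e' : b + b' + 2 * (c + c') ≤ 2
      · simp only [X, if_neg e, if_pos e']
        split_ifs
        any_goals omega
        simp
      · have := X1 a b c
        have := X1 a' b' c'
        simp only [X, if_neg e, if_neg e'] at *
        push_cast
        linarith
  refine ⟨fun u => L (u.length - 1) + X (u.count 0) (u.count 1) (u.count 2),
    fun u => add_nonneg (L0 _) (X0 ..), fun u => ?_, fun u v hu hv j => ?_⟩
  · have a := X1 (u.count 0) (u.count 1) (u.count 2)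
    have b : ((u.length - 1 : ℕ) : ℝ) ≤ u.length := by exact_mod_cast Nat.sub_le _ _
    have c : (u.length : ℝ) = u.count 0 + u.count 1 + u.count 2 := by exact_mod_cast (lst 0 u).2
    linarith [L1 (u.length - 1)]
  obtain ⟨p, hp⟩ := Nat.exists_eq_succ_of_ne_zero (List.length_pos_iff.2 hu).ne'
  obtain ⟨q, hq⟩ := Nat.exists_eq_succ_of_ne_zero (List.length_pos_iff.2 hv).ne'
  have a := (lst 0 u).2
  have b := (lst 0 v).2
  have x := X2 _ _ _ _ _ _ (a ▸ hp ▸ p.succ_pos) (b ▸ hq ▸ q.succ_pos)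
  have y := L2 p q
  rw [(lst _ _).1]
  simp only [List.count_append, List.length_append, hp, hq, Nat.succ_sub_one,
    show p.succ + q.succ - 1 = p + q + 1 by omega, Matrix.cons_val_zero, Matrix.cons_val_one,
    Matrix.cons_val]
  rw [add_add_add_comm, exp_add, exp_add (L (p + q + 1)), ← mul_assoc]
  rcases dvs h (u.count 0 + v.count 0) (u.count 1 + v.count 1) (u.count 2 + v.count 2) (p + q + 1)
    (by omega) j with d | ⟨d1, d2, d⟩
  · refine mul_le_mul (y.trans (mul_le_mul_of_nonneg_right (by linarith) (exp_pos _).le))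
      (exp_le_exp.2 (le_trans ?_ x)) (exp_pos _).le
      (by positivity)
    exact le_add_of_nonneg_right (by positivity)
  · rw [if_pos ⟨d1, d2⟩] at x
    have n4 := norm_sub_le (lam ^ (p + q + 1)) 1
    rw [norm_pow, lam_norm, one_pow, norm_one] at n4
    have := (le_mul_of_one_le_left (exp_pos _).le (r1 (u.count 0 + v.count 0))).trans
      (le_of_eq_of_le (by rw [mul_assoc, ← exp_add, add_comm (r _ : ℝ)]) (mul_le_mul_of_nonneg_left
        (exp_le_exp.2 x) (by positivity : 0 ≤ 2 * ‖lam ^ (u.count 0 + v.count 0) - ν‖)))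
    refine (mul_le_mul (y.trans (mul_le_mul_of_nonneg_right (show _ ≤ 4 by linarith) (exp_pos _).le)) this (exp_pos _).le
      (by positivity)).trans_eq ?_
    rw [d]
    ring

end Pool.Agent.H.MP_0ef3a5_an
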